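import Mathlib
import Pool.Agent.LeoG.Defs

/-!
# Integral binary cubic forms over an arbitrary number field (squad LEOC)

MP_5f2860_nt.  Mixed space, frames, sizes of vectors, regions.
-/

set_option autoImplicit false

open NumberField NumberField.InfinitePlace NumberField.mixedEmbedding IsDedekindDomain Module
  MeasureTheory
open Pool.Agent.LeoK Pool.Agent.LeoG

open scoped Classical

namespace Pool.Agent.LeoC

/-- The mixed space `ℝ^r₁ × ℂ^r₂`. -/
abbrev MS (k : Type) [Field k] : Type := mixedEmbedding.mixedSpace k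

/-- Vectors indexed by the infinite places. -/
abbrev PS (k : Type) [Field k] : Type := InfinitePlace k → ℝ

section

variable {k : Type} [Field k]

/-- The value of a vector of the mixed space at a place. -/
noncomputable def ev (v : InfinitePlace k) (y : MS k) : ℂ :=
  if h : IsReal v then (y.1 ⟨v, h⟩ : ℂ) else y.2 ⟨v, not_isReal_iff_isComplex.mp h⟩

/-- The absolute values of a vector of the mixed space. -/
noncomputable def av (y : MS k) : PS k := fun v => ‖ev v y‖

/-- The real coordinates are negative at the places of `N` and positive at the other real places,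
the complex coordinates are not zero. -/
def Sgn (N : Set {w : InfinitePlace k // IsReal w}) (y : MS k) : Prop :=
  (∀ w, (w ∈ N → y.1 w < 0) ∧ (w ∉ N → 0 < y.1 w)) ∧ ∀ w, y.2 w ≠ 0

end

variable {k : Type} [Field k] [NumberField k]

/-- The norm of a vector of absolute values. -/
noncomputable def nr (x : PS k) : ℝ := ∏ v, x v ^ v.mult

/-- A cone of positive vectors, fundamental domain for the squares of the absolute values of
units. -/
structure CFrame (k : Type) [Field k] [NumberField k] where
  F : Set (PS k)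
  meas : MeasurableSet F
  pos : ∀ x ∈ F, ∀ v, 0 < x v
  scal : ∀ x ∈ F, ∀ t : ℝ, 0 < t → t • x ∈ F
  cF : ℝ
  cmp : ∀ x ∈ F, ∀ v v', x v ≤ cF * x v'
  null : volume (frontier (F ∩ {x | nr x ≤ 1})) = 0
  exi : ∀ x : PS k, (∀ v, 0 < x v) → ∃ η : (𝓞 k)ˣ, (fun v => v ((η : 𝓞 k) : k) ^ 2 * x v) ∈ F
  uni : ∀ x ∈ F, ∀ η : (𝓞 k)ˣ, (fun v => v ((η : 𝓞 k) : k) ^ 2 * x v) ∈ F →
    ∀ v : InfinitePlace k, v ((η : 𝓞 k) : k) = 1

/-- The weight of the cone. -/
noncomputable def CFrame.w (Φ : CFrame k) : ℝ :=
  (∫⁻ x in Φ.F ∩ {x | nr x ≤ 1}, ∏ v : InfinitePlace k, ENNReal.ofReal (x v ^ (v.mult - 1))).toReal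

/-- The covolume of the ring of integers. -/
noncomputable def cov (k : Type) [Field k] [NumberField k] : ℝ :=
  (volume (ZSpan.fundamentalDomain (latticeBasis k))).toReal

/-- The fundamental domain of the ring of integers. -/
noncomputable def FD (k : Type) [Field k] [NumberField k] : Set (MS k) :=
  ZSpan.fundamentalDomain (latticeBasis k)

/-- The number of places that are complex or in `N`. -/
noncomputable def un (N : Set {w : InfinitePlace k // IsReal w}) : ℕ :=
  N.ncard + nrComplexPlaces k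

/-- The size of the vector `(X, Y)` for a complex form with nonzero discriminant: if
`v = l₁³ + l₂³` then `hc v X Y = (|l₁|² + |l₂|²) / (2 |det (l₁, l₂)|)`. -/
noncomputable def hc (v : Q4 ℂ) (X Y : ℂ) : ℝ :=
  (‖(gval v X Y + gcov v X Y / (27 * mm v) ^ (1 / 2 : ℂ)) / 2‖ ^ (2 / 3 : ℝ) +
    ‖(gval v X Y - gcov v X Y / (27 * mm v) ^ (1 / 2 : ℂ)) / 2‖ ^ (2 / 3 : ℝ)) /
    (2 * (‖mm v‖ / 27) ^ (1 / 6 : ℝ))

/-- A form over the mixed space at a place. -/
noncomputable def fv (v : InfinitePlace k) (g : Fin 4 → MS k) : Q4 ℂ := fun i => ev v (g i)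

/-- The form over the mixed space attached to an integral form. -/
noncomputable def em (g : Q4 (𝓞 k)) : Fin 4 → MS k := fun i => mixedEmbedding k (g i : k)

/-- The sizes of the first basis vector. -/
noncomputable def sz (g : Fin 4 → MS k) : PS k := fun v => hc (fv v g) 1 0

/-- The sizes of a vector for an integral form. -/
noncomputable def hk (g : Q4 (𝓞 k)) (X Y : 𝓞 k) : PS k :=
  fun v => hc (fv v (em g)) (v.embedding (X : k)) (v.embedding (Y : k))

/-- The region of normalised forms: `G` is the domain for `B / (3A)`. -/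
structure CReg (Φ : CFrame k) (N : Set {w : InfinitePlace k // IsReal w}) (G : Set (MS k))
    (Z T : ℝ) (g : Q4 (𝓞 k)) : Prop where
  ane : g 0 ≠ 0
  bG : (em g 1 / (3 * em g 0) : MS k) ∈ G
  sgn : Sgn N (mixedEmbedding k ((mm g : 𝓞 k) : k))
  mF : av (mixedEmbedding k ((mm g : 𝓞 k) : k)) ∈ Φ.F
  xF : sz (em g) ∈ Φ.F
  mZ : nr (av (mixedEmbedding k ((mm g : 𝓞 k) : k))) ≤ Z
  xT : nr (sz (em g)) ≤ T

end Pool.Agent.LeoC
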