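import Mathlib
import Pool.Agent.LeoG.UpStmts
import Pool.Agent.LeoC.Defs

/-!
# Module statements of the upper bound over an arbitrary number field (squad LEOC)
-/

set_option autoImplicit false

open NumberField NumberField.InfinitePlace NumberField.mixedEmbedding IsDedekindDomain Module
  MeasureTheory Filter Topology
open Pool.Agent.LeoK Pool.Agent.LeoG

open scoped Classical

namespace Pool.Agent.LeoC

/-! ## The field -/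

/-- EVS: coordinates. -/
def EvsStmt : Prop :=
  ∀ (k : Type) [Field k] [NumberField k],
    (∀ (v : InfinitePlace k) (x : k), ev v (mixedEmbedding k x) = v.embedding x) ∧
    (∀ (v : InfinitePlace k) (y y' : MS k), ev v (y + y') = ev v y + ev v y' ∧
      ev v (y * y') = ev v y * ev v y' ∧ ev v (-y) = -ev v y ∧ ev v (y / y') = ev v y / ev v y') ∧
    (∀ (v : InfinitePlace k) (t : ℝ) (y : MS k), ev v (t • y) = t * ev v y) ∧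
    (∀ (v : InfinitePlace k) (n : ℕ), ev v (n : MS k) = n) ∧
    (∀ y y' : MS k, (∀ v, ev v y = ev v y') → y = y') ∧
    (∀ v : InfinitePlace k, Continuous fun y : MS k => ev v y) ∧
    (∀ x : k, nr (av (mixedEmbedding k x)) = |((Algebra.norm ℚ x : ℚ) : ℝ)|) ∧
    (∀ x : k, ∀ v : InfinitePlace k, av (mixedEmbedding k x) v = v x) ∧
    ∀ x : 𝓞 k, x ≠ 0 → 1 ≤ nr (av (mixedEmbedding k (x : k))) ∧
      nr (av (mixedEmbedding k (x : k))) = (Ideal.absNorm (Ideal.span {x}) : ℝ)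

/-- FRA: a frame exists. -/
def FraStmt : Prop :=
  ∀ (k : Type) [Field k] [NumberField k], Nonempty (CFrame k)

/-- AVV: the volume of a set defined by signs and absolute values. -/
def AvvStmt : Prop :=
  ∀ (k : Type) [Field k] [NumberField k] (N : Set {w : InfinitePlace k // IsReal w})
    (A : Set (PS k)), MeasurableSet A → (∀ x ∈ A, ∀ v, 0 < x v) →
    volume {y : MS k | Sgn N y ∧ av y ∈ A} =
      ENNReal.ofReal ((2 * Real.pi) ^ nrComplexPlaces k) *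
        ∫⁻ x in A, ∏ v : InfinitePlace k, ENNReal.ofReal (x v ^ (v.mult - 1))

/-- CON: properties of the cone. -/
def ConStmt : Prop :=
  ∀ (k : Type) [Field k] [NumberField k] (Φ : CFrame k),
    0 < cov k ∧ 0 < Φ.w ∧ 1 ≤ Φ.cF ∧
    (∀ x ∈ Φ.F, ∀ v, x v ≤ Φ.cF * nr x ^ (1 / finrank ℚ k : ℝ) ∧
      nr x ^ (1 / finrank ℚ k : ℝ) ≤ Φ.cF * x v) ∧
    (∀ x : PS k, ∀ t : ℝ, nr (t • x) = t ^ finrank ℚ k * nr x) ∧
    (∀ T : ℝ, 0 < T → Bornology.IsBounded (Φ.F ∩ {x | nr x ≤ T}) ∧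
      (∫⁻ x in Φ.F ∩ {x | nr x ≤ T}, ∏ v : InfinitePlace k, ENNReal.ofReal (x v ^ (v.mult - 1))) =
        ENNReal.ofReal (Φ.w * T) ∧
      (∫⁻ x in closure (Φ.F ∩ {x | nr x ≤ T}),
          ∏ v : InfinitePlace k, ENNReal.ofReal (x v ^ (v.mult - 1))) = ENNReal.ofReal (Φ.w * T) ∧
      (∫⁻ x in interior (Φ.F ∩ {x | nr x ≤ T}),
          ∏ v : InfinitePlace k, ENNReal.ofReal (x v ^ (v.mult - 1))) = ENNReal.ofReal (Φ.w * T))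

/-- COV: an integral basis of an ideal and the volume of its fundamental domain. -/
def CovStmt : Prop :=
  ∀ (k : Type) [Field k] [NumberField k] (I : Ideal (𝓞 k)), I ≠ ⊥ →
    ∃ (κ : Type) (_ : Fintype κ) (B' : Basis κ ℝ (MS k)),
      (∀ y : MS k, y ∈ Submodule.span ℤ (Set.range B') ↔ ∃ x ∈ I, y = mixedEmbedding k (x : k)) ∧
      (volume (ZSpan.fundamentalDomain B')).toReal = cov k * (Ideal.absNorm I : ℝ)

/-- SF4: quadruples of integers in residue classes modulo `I`, in `t • K`. -/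
def Sf4Stmt : Prop :=
  ∀ (k : Type) [Field k] [NumberField k] (I : Ideal (𝓞 k)), I ≠ ⊥ →
    ∀ (S : Set (Q4 (𝓞 k ⧸ I))) (K : Set (Fin 4 → MS k)), IsCompact K → ∀ ε : ℝ, 0 < ε →
    ∃ t₀ : ℝ, 0 < t₀ ∧ ∀ t : ℝ, t₀ ≤ t →
      {g : Q4 (𝓞 k) | modQ I g ∈ S ∧ t⁻¹ • em g ∈ K}.Finite ∧
      ({g : Q4 (𝓞 k) | modQ I g ∈ S ∧ t⁻¹ • em g ∈ K}.ncard : ℝ) ≤
        ((S.ncard : ℝ) / (Ideal.absNorm I : ℝ) ^ 4 * (volume K).toReal / cov k ^ 4 + ε) *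
          t ^ (4 * finrank ℚ k)

/-! ## Forms at one place -/

/-- The sum of two cubes. -/
def tc (u : Fin 4 → ℂ) : Q4 ℂ :=
  ![u 0 ^ 3 + u 2 ^ 3, 3 * (u 0 ^ 2 * u 1 + u 2 ^ 2 * u 3), 3 * (u 0 * u 1 ^ 2 + u 2 * u 3 ^ 2),
    u 1 ^ 3 + u 3 ^ 3]

/-- The determinant of the two linear forms. -/
def dc (u : Fin 4 → ℂ) : ℂ := u 0 * u 3 - u 1 * u 2

/-- TCU: values for a sum of two cubes. -/
def TcuStmt : Prop :=
  ∀ u : Fin 4 → ℂ, mm (tc u) = 27 * dc u ^ 6 ∧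
    (∀ X Y : ℂ, gval (tc u) X Y = (u 0 * X + u 1 * Y) ^ 3 + (u 2 * X + u 3 * Y) ^ 3) ∧
    (dc u ≠ 0 → ∀ X Y : ℂ,
      hc (tc u) X Y = (‖u 0 * X + u 1 * Y‖ ^ 2 + ‖u 2 * X + u 3 * Y‖ ^ 2) / (2 * ‖dc u‖))

/-- TCB: every form is a sum of two cubes, and how many times; the real cases. -/
def TcbStmt : Prop :=
  (∀ v : Q4 ℂ, mm v ≠ 0 → ∃ u : Fin 4 → ℂ, dc u ≠ 0 ∧ tc u = v) ∧
  (∀ u u' : Fin 4 → ℂ, dc u ≠ 0 → tc u = tc u' → ∃ a b : ℂ, a ^ 3 = 1 ∧ b ^ 3 = 1 ∧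
    (u' = ![a * u 0, a * u 1, b * u 2, b * u 3] ∨ u' = ![a * u 2, a * u 3, b * u 0, b * u 1])) ∧
  (∀ v : Q4 ℝ, 0 < mm v → ∃ u : Fin 4 → ℝ, 0 < dt u ∧ th u = v) ∧
  (∀ v : Q4 ℝ, mm v < 0 → ∃ p q : ℂ, 0 < (p * starRingEnd ℂ q).im ∧
    tc ![p, q, starRingEnd ℂ p, starRingEnd ℂ q] = fun i => (v i : ℂ)) ∧
  (∀ v : Q4 ℝ, 0 < mm v → ∀ X Y : ℝ, hc (fun i => (v i : ℂ)) X Y = hz v X Y)

/-- PSN: push forward at a real place with `m < 0`: density `π / 3`. -/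
def PsnStmt : Prop :=
  ∀ h : ℝ × ℝ × ℝ → ENNReal, Measurable h →
    (∫⁻ w : Fin 4 → ℝ in {w | w 0 ≠ 0 ∧ mm w < 0},
        h (w 1 / (3 * w 0), hc (fun i => (w i : ℂ)) 1 0, mm w)) =
      ∫⁻ u : ℝ × ℝ × ℝ in {u | 0 < u.2.1 ∧ u.2.2 < 0}, h u * ENNReal.ofReal (Real.pi / 3)

/-- PSC: push forward at a complex place: density `π² x / 3`. -/
def PscStmt : Prop :=
  ∀ h : ℂ × ℝ × ℂ → ENNReal, Measurable h →
    (∫⁻ w : Fin 4 → ℂ in {w | w 0 ≠ 0 ∧ mm w ≠ 0}, h (w 1 / (3 * w 0), hc w 1 0, mm w)) =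
      ∫⁻ u : ℂ × ℝ × ℂ in {u | 0 < u.2.1}, h u * ENNReal.ofReal (Real.pi ^ 2 / 3 * u.2.1)

/-- VOL: volume of a region of forms over all places. -/
def VolStmt : Prop :=
  ∀ (k : Type) [Field k] [NumberField k] (N : Set {w : InfinitePlace k // IsReal w})
    (G M : Set (MS k)) (A : Set (PS k)), MeasurableSet G → MeasurableSet A → MeasurableSet M →
    (∀ x ∈ A, ∀ v, 0 < x v) → (∀ y ∈ M, Sgn N y) →
    volume {g : Fin 4 → MS k | (∀ v, ev v (g 0) ≠ 0) ∧ (g 1 / (3 * g 0) : MS k) ∈ G ∧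
        sz g ∈ A ∧ (mm g : MS k) ∈ M} =
      ENNReal.ofReal (Real.pi ^ finrank ℚ k / 3 ^ un N) * volume G *
        (∫⁻ x in A, ∏ v : InfinitePlace k, ENNReal.ofReal (x v ^ (v.mult - 1))) * volume M

/-- KET: the compact set of the main part and its volume. -/
def KetStmt : Prop :=
  ∀ (k : Type) [Field k] [NumberField k] (Φ : CFrame k)
    (N : Set {w : InfinitePlace k // IsReal w}) (T η : ℝ), 0 < T →
    0 < η → ∃ K : Set (Fin 4 → MS k), IsCompact K ∧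
      (volume K).toReal ≤ Real.pi ^ finrank ℚ k / 3 ^ un N * cov k * (T * Φ.w) *
        ((2 * Real.pi) ^ nrComplexPlaces k * Φ.w) ∧
      ∀ g : Fin 4 → MS k, (∀ v, η ≤ ‖ev v (g 0)‖) → Sgn N (mm g) →
        (g 1 / (3 * g 0) : MS k) ∈ FD k → sz g ∈ Φ.F → nr (sz g) ≤ T →
        av (mm g : MS k) ∈ Φ.F → η ≤ nr (av (mm g : MS k)) → nr (av (mm g : MS k)) ≤ 1 → g ∈ K

/-- UPP: upper bound for the number of normalised forms in given residue classes, with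
`|A| ≥ η |m|^(1/4)` at every place. -/
def UppStmt : Prop :=
  ∀ (k : Type) [Field k] [NumberField k] (Φ : CFrame k)
    (N : Set {w : InfinitePlace k // IsReal w}) (I : Ideal (𝓞 k)), I ≠ ⊥ →
    ∀ (S : Set (Q4 (𝓞 k ⧸ I))) (T η ε : ℝ), 0 < T → 0 < η → η ≤ 1 → 0 < ε →
    ∃ Z₀ : ℝ, 1 ≤ Z₀ ∧ ∀ Z : ℝ, Z₀ ≤ Z →
      {g : Q4 (𝓞 k) | modQ I g ∈ S ∧ CReg Φ N (FD k) Z T g ∧
        (∀ v : InfinitePlace k, η * v ((mm g : 𝓞 k) : k) ^ (1 / 4 : ℝ) ≤ v (g 0 : k)) ∧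
        η * Z ≤ nr (av (mixedEmbedding k ((mm g : 𝓞 k) : k)))}.Finite ∧
      ({g : Q4 (𝓞 k) | modQ I g ∈ S ∧ CReg Φ N (FD k) Z T g ∧
        (∀ v : InfinitePlace k, η * v ((mm g : 𝓞 k) : k) ^ (1 / 4 : ℝ) ≤ v (g 0 : k)) ∧
        η * Z ≤ nr (av (mixedEmbedding k ((mm g : 𝓞 k) : k)))}.ncard : ℝ) ≤
        ((S.ncard : ℝ) / (Ideal.absNorm I : ℝ) ^ 4 *
          (Real.pi ^ finrank ℚ k / 3 ^ un N * (2 * Real.pi) ^ nrComplexPlaces k * T * Φ.w ^ 2 /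
            cov k ^ 3) + ε) * Z

/-! ## The crude count -/

/-- BOX: elements of `𝓞 k` in a product of discs. -/
def BoxStmt : Prop :=
  ∀ (k : Type) [Field k] [NumberField k], ∃ C : ℝ, 0 < C ∧
      ∀ (α : InfinitePlace k → ℂ) (L : PS k), (∀ v, 0 ≤ L v) →
        {x : 𝓞 k | ∀ v : InfinitePlace k, ‖v.embedding (x : k) - α v‖ ≤ L v}.Finite ∧
        ({x : 𝓞 k | ∀ v : InfinitePlace k, ‖v.embedding (x : k) - α v‖ ≤ L v}.ncard : ℝ) ≤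
          C * nr (fun v => L v + 1)

/-- BCN: the number of `b` with `b / a` bounded, for given `a`. -/
def BcnStmt : Prop :=
  ∀ (k : Type) [Field k] [NumberField k] (R : ℝ), 0 < R → ∃ C : ℝ, 0 < C ∧
    ∀ a : 𝓞 k, a ≠ 0 →
      {b : 𝓞 k | ∀ v : InfinitePlace k, v (b : k) ≤ R * v (a : k)}.Finite ∧
      ({b : 𝓞 k | ∀ v : InfinitePlace k, v (b : k) ≤ R * v (a : k)}.ncard : ℝ) ≤
        C * nr (av (mixedEmbedding k (a : k)))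

/-- REA: inequalities at one place. -/
def ReaStmt : Prop :=
  (∀ v : Q4 ℂ, mm v ≠ 0 → 0 ≤ hc v 1 0 ∧ (v 0 ≠ 0 → 0 < hc v 1 0) ∧
    ‖v 0‖ ≤ 2 * (hc v 1 0 ^ (3 / 2 : ℝ) * ‖mm v‖ ^ (1 / 4 : ℝ)) ∧
    ‖v 1 ^ 2 - 3 * v 0 * v 2‖ ≤ 2 * (hc v 1 0 * Real.sqrt ‖mm v‖)) ∧
  ∀ κ : ℝ, 1 ≤ κ → ∃ C : ℝ, 0 < C ∧ ∀ (a b c : ℂ) (M ξ : ℝ), a ≠ 0 → 0 < M → 0 < ξ →
    ∃ α : Fin 2 → ℂ, ∀ d : ℂ, M ≤ κ * ‖mm ![a, b, c, d]‖ → ‖mm ![a, b, c, d]‖ ≤ κ * M →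
      ξ ≤ κ * hc ![a, b, c, d] 1 0 → hc ![a, b, c, d] 1 0 ≤ κ * ξ →
      ∃ i, ‖d - α i‖ ≤ C * (M ^ (1 / 4 : ℝ) / ξ ^ (3 / 2 : ℝ))

/-- The forms of one dyadic cell. -/
def ccell {k : Type} [Field k] [NumberField k] (cF R M ξ : ℝ) : Set (Q4 (𝓞 k)) :=
  {g | g 0 ≠ 0 ∧ (∀ v : InfinitePlace k, v (g 1 : k) ≤ R * v (g 0 : k)) ∧
    (∀ v : InfinitePlace k, M ≤ cF * v ((mm g : 𝓞 k) : k) ∧ v ((mm g : 𝓞 k) : k) ≤ 2 * cF * M) ∧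
    (∀ v : InfinitePlace k, ξ ≤ cF * sz (em g) v ∧ sz (em g) v ≤ 2 * cF * ξ)}

/-- CEL: one dyadic cell; moreover the cell is empty if `ξ^(3/2) M^(1/4)` is small. -/
def CelStmt : Prop :=
  ∀ (k : Type) [Field k] [NumberField k] (cF R ξ₀ : ℝ), 1 ≤ cF → 0 < R →
    0 < ξ₀ → ∃ C : ℝ, 0 < C ∧ ∀ M ξ : ℝ, 1 / 2 ≤ M → 0 < ξ → ξ ≤ ξ₀ →
      (ccell (k := k) cF R M ξ).Finite ∧
      ((ccell (k := k) cF R M ξ).ncard : ℝ) ≤ C * ξ ^ finrank ℚ k * M ^ finrank ℚ k ∧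
      ((ccell (k := k) cF R M ξ).Nonempty → 1 ≤ C * (ξ ^ (3 / 2 : ℝ) * M ^ (1 / 4 : ℝ)))

/-- CRU: crude uniform bound for the number of normalised forms. -/
def CruStmt : Prop :=
  ∀ (k : Type) [Field k] [NumberField k] (Φ : CFrame k)
    (N : Set {w : InfinitePlace k // IsReal w}) (R T₀ : ℝ), 0 < R →
    0 < T₀ → ∃ C : ℝ, 0 < C ∧ ∀ Z T : ℝ, 1 ≤ Z → 0 < T → T ≤ T₀ →
      {g : Q4 (𝓞 k) | CReg Φ N {y | ∀ v, ‖ev v y‖ ≤ R} Z T g}.Finite ∧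
      ({g : Q4 (𝓞 k) | CReg Φ N {y | ∀ v, ‖ev v y‖ ≤ R} Z T g}.ncard : ℝ) ≤ C * T * Z

end Pool.Agent.LeoC
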