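import Mathlib
import Pool.Agent.LeoK.CountStmts
import Pool.Agent.LeoG.AlgStmts
import Pool.Agent.LeoC.UpStmts

/-!
# Counting part over an arbitrary number field: marks, the family, the final inequality (LEOC)

Paper: PAPER_LEOC_COUNT.md (port of PAPER_LEO4_COUNT.md).
-/

set_option autoImplicit false

open NumberField NumberField.InfinitePlace NumberField.mixedEmbedding IsDedekindDomain Module
  MeasureTheory Filter Topology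
open Pool.Agent.LeoK Pool.Agent.LeoG Pool.Agent.Leo3

open scoped Classical

namespace Pool.Agent.LeoC

/-! ## The space of the marks -/

/-- The space of the marks: a complex number at every real place and a pair of complex numbers at
every complex place. -/
abbrev WS (k : Type) [Field k] : Type :=
  ({w : InfinitePlace k // IsReal w} → ℂ) × ({w : InfinitePlace k // IsComplex w} → ℂ × ℂ)

/-- The sizes of a vector. -/
noncomputable def wz {k : Type} [Field k] (w : WS k) : PS k := fun v =>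
  if h : IsReal v then ‖w.1 ⟨v, h⟩‖ ^ 2
  else ‖(w.2 ⟨v, not_isReal_iff_isComplex.mp h⟩).1‖ ^ 2 +
    ‖(w.2 ⟨v, not_isReal_iff_isComplex.mp h⟩).2‖ ^ 2

/-- The value of the standard cubic form at a real place. -/
noncomputable def c3 {k : Type} [Field k] (N : Set {w : InfinitePlace k // IsReal w}) (w : WS k)
    (v : {w : InfinitePlace k // IsReal w}) : ℝ :=
  if v ∈ N then |((w.1 v) ^ 3).im| else |(w.1 v).re ^ 3 + (w.1 v).im ^ 3|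

/-- ROR: a real form with `m ≠ 0`: coordinates of a vector in `ℂ`. -/
def RorStmt : Prop :=
  ∀ v : Q4 ℝ, mm v ≠ 0 → ∃ z₁ z₂ : ℂ, |(starRingEnd ℂ z₁ * z₂).im| = 1 / 2 ∧
    ∀ X Y : ℝ, ‖(X : ℂ) * z₁ + (Y : ℂ) * z₂‖ ^ 2 = hc (fun i => (v i : ℂ)) X Y ∧
      (0 < mm v → |mm v| ^ (1 / 4 : ℝ) * |((X : ℂ) * z₁ + (Y : ℂ) * z₂).re ^ 3 +
        ((X : ℂ) * z₁ + (Y : ℂ) * z₂).im ^ 3| ≤ 2 * |gval v X Y|) ∧
      (mm v < 0 →
        |mm v| ^ (1 / 4 : ℝ) * |(((X : ℂ) * z₁ + (Y : ℂ) * z₂) ^ 3).im| ≤ 2 * |gval v X Y|)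

/-- ROC: a complex form with `m ≠ 0`: coordinates of a vector in `ℂ²`. -/
def RocStmt : Prop :=
  ∀ v : Q4 ℂ, mm v ≠ 0 → ∃ a b c d : ℂ, ‖a * d - b * c‖ = 1 / 2 ∧
    ∀ X Y : ℂ, ‖a * X + b * Y‖ ^ 2 + ‖c * X + d * Y‖ ^ 2 = hc v X Y ∧
      ‖mm v‖ ^ (1 / 4 : ℝ) * ‖(a * X + b * Y) ^ 3 + (c * X + d * Y) ^ 3‖ ≤ 2 * ‖gval v X Y‖

/-- MAP: the coordinates of the vectors for an integral form. -/
def MapStmt : Prop :=
  ∀ (k : Type) [Field k] [NumberField k] (N : Set {w : InfinitePlace k // IsReal w})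
    (g : Q4 (𝓞 k)), Sgn N (mixedEmbedding k ((mm g : 𝓞 k) : k)) →
    ∃ L : (MS k × MS k) ≃L[ℝ] WS k,
      (∀ S : Set (MS k × MS k), volume (L '' S) = ENNReal.ofReal ((1 / 2) ^ finrank ℚ k) * volume S) ∧
      ∀ X Y : 𝓞 k, wz (L (mixedEmbedding k (X : k), mixedEmbedding k (Y : k))) = hk g X Y ∧
        (∀ v : {w : InfinitePlace k // IsReal w},
          v.1 ((mm g : 𝓞 k) : k) ^ (1 / 4 : ℝ) *
            c3 N (L (mixedEmbedding k (X : k), mixedEmbedding k (Y : k))) v ≤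
              2 * v.1 ((gval g X Y : 𝓞 k) : k)) ∧
        ∀ v : {w : InfinitePlace k // IsComplex w},
          v.1 ((mm g : 𝓞 k) : k) ^ (1 / 4 : ℝ) *
            ‖((L (mixedEmbedding k (X : k), mixedEmbedding k (Y : k))).2 v).1 ^ 3 +
              ((L (mixedEmbedding k (X : k), mixedEmbedding k (Y : k))).2 v).2 ^ 3‖ ≤
              2 * v.1 ((gval g X Y : 𝓞 k) : k)

/-- The region of the marks. -/
def DD {k : Type} [Field k] [NumberField k] (Φ : CFrame k)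
    (N : Set {w : InfinitePlace k // IsReal w}) (η : ℝ) : Set (WS k) :=
  {w | wz w ∈ interior (Φ.F ∩ {x | nr x ≤ 1}) ∧ (∀ v, η < c3 N w v) ∧
    ∀ v, η < ‖(w.2 v).1 ^ 3 + (w.2 v).2 ^ 3‖}

/-- VOD: volume of the region of the marks. -/
def VodStmt : Prop :=
  ∀ (k : Type) [Field k] [NumberField k] (Φ : CFrame k)
    (N : Set {w : InfinitePlace k // IsReal w}) (ε : ℝ), 0 < ε →
    ∃ η : ℝ, 0 < η ∧ IsOpen (DD Φ N η) ∧ Bornology.IsBounded (DD Φ N η) ∧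
      Real.pi ^ finrank ℚ k * Φ.w - ε ≤ (volume (DD Φ N η)).toReal

/-! ## The number field -/

/-- REP: representatives of the ideal classes. -/
def RepStmt : Prop :=
  ∀ (k : Type) [Field k] [NumberField k], ∃ N₀ : ℕ, 0 < N₀ ∧
    ∀ I : Ideal (𝓞 k), I ≠ ⊥ → ∃ (r : Ideal (𝓞 k)) (α β : 𝓞 k), α ≠ 0 ∧ β ≠ 0 ∧
      (N₀ : 𝓞 k) ∈ r ∧ Ideal.span {β} * I = Ideal.span {α} * r ∧
      (Ideal.absNorm I : ℝ) * nr (av (mixedEmbedding k (β : k))) ≤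
        N₀ * nr (av (mixedEmbedding k (α : k))) ∧
      nr (av (mixedEmbedding k (α : k))) ≤
        (Ideal.absNorm I : ℝ) * nr (av (mixedEmbedding k (β : k)))

/-! ## Marks -/

/-- The good marks of a form. -/
def Mks {k : Type} [Field k] [NumberField k] (Φ : CFrame k) (T η : ℝ) (g : Q4 (𝓞 k)) :
    Set (𝓞 k × 𝓞 k) :=
  {p | IsCoprime p.1 p.2 ∧ hk g p.1 p.2 ∈ Φ.F ∧ nr (hk g p.1 p.2) ≤ T ∧
    ∀ v : InfinitePlace k, η * v ((mm g : 𝓞 k) : k) ^ (1 / 4 : ℝ) ≤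
      v ((gval g p.1 p.2 : 𝓞 k) : k)}

/-- A form with the sign pattern `N` without short vectors. -/
structure Lrg {k : Type} [Field k] [NumberField k] (N : Set {w : InfinitePlace k // IsReal w})
    (δ : ℝ) (g : Q4 (𝓞 k)) : Prop where
  sgn : Sgn N (mixedEmbedding k ((mm g : 𝓞 k) : k))
  short : ∀ X Y : 𝓞 k, (X ≠ 0 ∨ Y ≠ 0) → δ ≤ nr (hk g X Y)

/-- LWT: the vectors divisible by a prime. -/
def LwtStmt : Prop :=
  ∀ (k : Type) [Field k] [NumberField k] (Φ : CFrame k)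
    (N : Set {w : InfinitePlace k // IsReal w}) (δ : ℝ), 0 < δ →
    ∃ A : ℝ, 0 < A ∧ ∀ g : Q4 (𝓞 k), Lrg N δ g → ∀ T : ℝ, 0 < T →
    {p : 𝓞 k × 𝓞 k | hk g p.1 p.2 ∈ Φ.F ∧ nr (hk g p.1 p.2) ≤ T}.Finite ∧
    ∀ q : HeightOneSpectrum (𝓞 k),
      ({p : 𝓞 k × 𝓞 k | p.1 ∈ q.asIdeal ∧ p.2 ∈ q.asIdeal ∧ hk g p.1 p.2 ∈ Φ.F ∧
        nr (hk g p.1 p.2) ≤ T}.ncard : ℝ) ≤ A * T / np q ^ 2

/-- LWA: the good vectors which are primitive at the primes of `Q`. -/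
def LwaStmt : Prop :=
  ∀ (k : Type) [Field k] [NumberField k] (Φ : CFrame k)
    (N : Set {w : InfinitePlace k // IsReal w}) (ε : ℝ), 0 < ε →
    ∃ η : ℝ, 0 < η ∧ ∀ (δ : ℝ) (Q : Finset (HeightOneSpectrum (𝓞 k))), 0 < δ →
    ∃ T₀ : ℝ, 0 < T₀ ∧ ∀ T : ℝ, T₀ ≤ T → ∀ g : Q4 (𝓞 k), Lrg N δ g →
    (∏ p ∈ Q, (1 - 1 / np p ^ 2)) * ((2 * Real.pi) ^ finrank ℚ k * Φ.w - ε) * T / cov k ^ 2 ≤
      ({p : 𝓞 k × 𝓞 k | (∀ q ∈ Q, ¬ (p.1 ∈ q.asIdeal ∧ p.2 ∈ q.asIdeal)) ∧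
        hk g p.1 p.2 ∈ Φ.F ∧ nr (hk g p.1 p.2) ≤ T ∧
        ∀ v : InfinitePlace k, η * v ((mm g : 𝓞 k) : k) ^ (1 / 4 : ℝ) ≤
          v ((gval g p.1 p.2 : 𝓞 k) : k)}.ncard : ℝ)

/-- LOW: many good marks. -/
def LowStmt : Prop :=
  ∀ (k : Type) [Field k] [NumberField k] (Φ : CFrame k)
    (N : Set {w : InfinitePlace k // IsReal w}) (δ ε : ℝ), 0 < δ →
    0 < ε → ∃ T η : ℝ, 0 < T ∧ 0 < η ∧ η ≤ 1 ∧ ∀ g : Q4 (𝓞 k), Lrg N δ g → (Mks Φ T η g).Finite ∧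
    (1 - ε) * (Pk k * (2 * Real.pi) ^ finrank ℚ k * Φ.w * T / cov k ^ 2) ≤
      ((Mks Φ T η g).ncard : ℝ)

/-! ## The family -/

/-- The family with sign pattern `N` up to norm `Z`. -/
def Mset {k : Type} [Field k] [NumberField k] (Φ : CFrame k)
    (N : Set {w : InfinitePlace k // IsReal w}) (Z : ℝ) : Set (𝓞 k) :=
  {m | Sgn N (mixedEmbedding k (m : k)) ∧ av (mixedEmbedding k (m : k)) ∈ Φ.F ∧
    nr (av (mixedEmbedding k (m : k))) ≤ Z ∧ (∃ q : 𝓞 k, (4 : 𝓞 k) ∣ q ^ 2 + m) ∧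
    ∀ p : HeightOneSpectrum (𝓞 k), LocOK p m}

/-- USQ: only units `m` have `3 m` a square, and `-m` is never a square. -/
def UsqStmt : Prop :=
  ∀ (k : Type) [Field k] [NumberField k] (m : 𝓞 k) (x : k),
    (∀ p : HeightOneSpectrum (𝓞 k), LocOK p m) →
    (x ^ 2 = 3 * (m : k) → nr (av (mixedEmbedding k (m : k))) = 1) ∧ x ^ 2 ≠ -(m : k)

/-- MST: all integers of the cone, and those divisible by the square of a prime. -/
def MstStmt : Prop :=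
  ∀ (k : Type) [Field k] [NumberField k] (Φ : CFrame k),
    ∃ A : ℝ, 0 < A ∧ ∀ Z : ℝ, 0 < Z →
    {m : 𝓞 k | av (mixedEmbedding k (m : k)) ∈ Φ.F ∧
      nr (av (mixedEmbedding k (m : k))) ≤ Z}.Finite ∧
    (({m : 𝓞 k | av (mixedEmbedding k (m : k)) ∈ Φ.F ∧
      nr (av (mixedEmbedding k (m : k))) ≤ Z}.ncard : ℝ) ≤ A * Z) ∧
    ∀ p : HeightOneSpectrum (𝓞 k),
      ({m : 𝓞 k | m ∈ p.asIdeal ^ 2 ∧ av (mixedEmbedding k (m : k)) ∈ Φ.F ∧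
        nr (av (mixedEmbedding k (m : k))) ≤ Z}.ncard : ℝ) ≤ A * Z / np p ^ 2

/-- MSA: integers of the cone in residue classes. -/
def MsaStmt : Prop :=
  ∀ (k : Type) [Field k] [NumberField k] (Φ : CFrame k)
    (N : Set {w : InfinitePlace k // IsReal w}) (I : Ideal (𝓞 k)),
    I ≠ ⊥ → ∀ (S : Set (𝓞 k ⧸ I)) (ε : ℝ), 0 < ε → ∃ Z₀ : ℝ, ∀ Z : ℝ, Z₀ ≤ Z →
    ((S.ncard : ℝ) / (Ideal.absNorm I : ℝ) * ((2 * Real.pi) ^ nrComplexPlaces k * Φ.w) / cov k -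
        ε) * Z ≤
      ({m : 𝓞 k | Ideal.Quotient.mk I m ∈ S ∧ Sgn N (mixedEmbedding k (m : k)) ∧
        av (mixedEmbedding k (m : k)) ∈ Φ.F ∧ nr (av (mixedEmbedding k (m : k))) ≤ Z}.ncard : ℝ)

/-- MSQ: the size of the family. -/
def MsqStmt : Prop :=
  ∀ (k : Type) [Field k] [NumberField k] (Φ : CFrame k)
    (N : Set {w : InfinitePlace k // IsReal w}),
    (∀ Z : ℝ, (Mset Φ N Z).Finite) ∧
    (∃ A : ℝ, 0 < A ∧ ∀ Z : ℝ, 0 < Z → ((Mset Φ N Z).ncard : ℝ) ≤ A * Z) ∧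
    ∀ ε : ℝ, 0 < ε → ∃ Z₀ : ℝ, ∀ Z : ℝ, Z₀ ≤ Z →
      (Dk k * ((2 * Real.pi) ^ nrComplexPlaces k * Φ.w) / (cov k * 2 ^ finrank ℚ k) - ε) * Z ≤
        ((Mset Φ N Z).ncard : ℝ)

/-! ## Forms and marks -/

/-- The normalised forms with given `m` and large first coefficient. -/
def Wset {k : Type} [Field k] [NumberField k] (Φ : CFrame k) (T η : ℝ) (m : 𝓞 k) :
    Set (Q4 (𝓞 k)) :=
  {g | mm g = m ∧ g 0 ≠ 0 ∧ (em g 1 / (3 * em g 0) : MS k) ∈ FD k ∧ sz (em g) ∈ Φ.F ∧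
    nr (sz (em g)) ≤ T ∧
    ∀ v : InfinitePlace k, η * v ((mm g : 𝓞 k) : k) ^ (1 / 4 : ℝ) ≤ v (g 0 : k)}

/-- HKA: the sizes and the action. -/
def HkaStmt : Prop :=
  ∀ (k : Type) [Field k] [NumberField k] (g : Q4 (𝓞 k)), mm g ≠ 0 →
    (∀ X Y : 𝓞 k, ∀ v, 0 ≤ hk g X Y v) ∧
    (∀ X Y : 𝓞 k, (X ≠ 0 ∨ Y ≠ 0) → ∀ v, 0 < hk g X Y v) ∧
    (∀ (t X Y : 𝓞 k) (v : InfinitePlace k), hk g (t * X) (t * Y) v = v (t : k) ^ 2 * hk g X Y v) ∧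
    (∀ x y z w X Y : 𝓞 k, ∀ v : InfinitePlace k, x * w - y * z ≠ 0 →
      hk (gact g x y z w) X Y v * v ((x * w - y * z : 𝓞 k) : k) =
        hk g (x * X + y * Y) (z * X + w * Y) v) ∧
    (∀ X Y : 𝓞 k, hk (gmir g) X Y = hk g (-X) Y) ∧ sz (em g) = hk g 1 0

/-- INJ: the marks of an irreducible form and of its mirror image give different forms. -/
def InjStmt : Prop :=
  ∀ (k : Type) [Field k] [NumberField k] (Φ : CFrame k) (T η : ℝ)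
    (g : Q4 (𝓞 k)), GIrr g → (∀ x : k, x ^ 2 ≠ -((mm g : 𝓞 k) : k)) →
    (Wset Φ T η (mm g)).Finite →
    (Mks Φ T η g).ncard + (Mks Φ T η (gmir g)).ncard ≤ (Wset Φ T η (mm g)).ncard

/-- NRF: normalisation of a form by a unit and a translation. -/
def NrfStmt : Prop :=
  ∀ (k : Type) [Field k] [NumberField k] (Φ : CFrame k) (g : Q4 (𝓞 k)),
    g 0 ≠ 0 → mm g ≠ 0 →
    ∃ w : Q4 (𝓞 k), mm w = mm g ∧ w 0 ≠ 0 ∧ (em w 1 / (3 * em w 0) : MS k) ∈ FD k ∧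
      sz (em w) ∈ Φ.F ∧ nr (sz (em w)) = nr (sz (em g))

/-- SMV: a short vector gives a form with small size of the first basis vector. -/
def SmvStmt : Prop :=
  ∀ (k : Type) [Field k] [NumberField k], ∃ (N₀ : ℕ) (A : ℝ), 0 < N₀ ∧ 0 < A ∧
    ∀ (g : Q4 (𝓞 k)) (X Y : 𝓞 k), GIrr g → mm g ≠ 0 →
    (X ≠ 0 ∨ Y ≠ 0) → ∃ w : Q4 (𝓞 k), mm w = (N₀ : 𝓞 k) ^ 6 * mm g ∧ w 0 ≠ 0 ∧
      nr (sz (em w)) ≤ A * nr (hk g X Y)

/-- EXC: few `m` have a form with a short vector. -/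
def ExcStmt : Prop :=
  ∀ (k : Type) [Field k] [NumberField k] (Φ : CFrame k)
    (N : Set {w : InfinitePlace k // IsReal w}), ∃ A : ℝ, 0 < A ∧
    ∀ δ Z : ℝ, 0 < δ → δ ≤ 1 → 1 ≤ Z →
    ({m : 𝓞 k | Sgn N (mixedEmbedding k (m : k)) ∧ av (mixedEmbedding k (m : k)) ∈ Φ.F ∧
      nr (av (mixedEmbedding k (m : k))) ≤ Z ∧
      ∃ (g : Q4 (𝓞 k)) (X Y : 𝓞 k), mm g = m ∧ GIrr g ∧ (X ≠ 0 ∨ Y ≠ 0) ∧
        nr (hk g X Y) < δ}.ncard : ℝ) ≤ A * δ * Z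

/-- CNT: the theorem of the counting part: at most the proportion `3 ^ (-u) / 2` of the `m` of the
family have a form without zeros. -/
def CntStmt : Prop :=
  ∀ (k : Type) [Field k] [NumberField k] (Φ : CFrame k)
    (N : Set {w : InfinitePlace k // IsReal w}),
    (∀ Z : ℝ, (Mset Φ N Z).Finite) ∧
    (∃ c : ℝ, 0 < c ∧ ∀ᶠ Z : ℝ in atTop, c * Z ≤ ((Mset Φ N Z).ncard : ℝ)) ∧
    ∀ ε : ℝ, 0 < ε → ∀ᶠ Z : ℝ in atTop,
      ({m | m ∈ Mset Φ N Z ∧ ((∃ x : k, x ^ 2 = 3 * (m : k)) ∨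
        ∃ g : Q4 (𝓞 k), GIrr g ∧ mm g = m)}.ncard : ℝ) ≤
          (1 / (2 * 3 ^ un N) + ε) * ((Mset Φ N Z).ncard : ℝ)

/-! ## Final statements -/

/-- ADM: the local conditions imply `AdmG`. -/
def AdcStmt : Prop :=
  ∀ (k : Type) [Field k] [NumberField k] (m : 𝓞 k),
    (∀ p : HeightOneSpectrum (𝓞 k), LocOK p m) → (∃ q : 𝓞 k, (4 : 𝓞 k) ∣ q ^ 2 + m) →
    (∀ x : k, x ^ 2 ≠ 3 * (m : k)) → AdmG k m

/-- RAT: for every number field and every sign pattern, for all but the proportion `3 ^ (-u) / 2` of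
the `m` of the family, `3 m` is not a square and every field `K = k(√(3m))` has the property
`GoodG`. -/
def RatStmt : Prop :=
  ∀ (k : Type) [Field k] [NumberField k] (Φ : CFrame k)
    (N : Set {w : InfinitePlace k // IsReal w}) (ε : ℝ), 0 < ε → ∀ᶠ Z : ℝ in atTop,
      (Mset Φ N Z).Finite ∧ (1 - 1 / (2 * 3 ^ un N) - ε) * ((Mset Φ N Z).ncard : ℝ) ≤
        ({m | m ∈ Mset Φ N Z ∧ (∀ x : k, x ^ 2 ≠ 3 * (m : k)) ∧
          ∀ (K : Type) [Field K] [NumberField K] [Algebra k K] (r : K), finrank k K = 2 →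
            r ^ 2 = algebraMap k K (3 * (m : k)) → GoodG k K}.ncard : ℝ)

/-- KCC: at least `c Z` good `m` of norm at most `Z`, balanced, pairwise different modulo
squares. -/
def KccStmt : Prop :=
  ∀ (k : Type) [Field k] [NumberField k] (N : Set {w : InfinitePlace k // IsReal w}),
    ∃ c B : ℝ, 0 < c ∧ ∀ᶠ Z : ℝ in atTop, ∃ S : Finset (𝓞 k), c * Z ≤ S.card ∧
      (∀ m ∈ S, AdmG k m ∧ Sgn N (mixedEmbedding k (m : k)) ∧
        ((Algebra.norm ℤ m).natAbs : ℝ) ≤ Z ∧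
        (∀ v v' : InfinitePlace k, v (m : k) ≤ B * v' (m : k)) ∧
        ¬ ∃ g : Q4 (𝓞 k), GIrr g ∧ mm g = m) ∧
      (∀ m ∈ S, ∀ m' ∈ S, IsSquare ((m : k) * m') → m = m')

end Pool.Agent.LeoC
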