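import Mathlib
import Pool.Agent.LeoK.CorStmts
import Pool.Agent.LeoC.CountStmts

/-!
# LEOC: final statements for arbitrary number fields and all signatures
-/

set_option autoImplicit false

open NumberField NumberField.InfinitePlace NumberField.mixedEmbedding IsDedekindDomain WithZero
  Module Filter
open Pool.Agent.Helper85_Leo Pool.Agent.Leo3 Pool.Agent.LeoK Pool.Agent.LeoG

open scoped Classical

namespace Pool.Agent.LeoC

/-- `K / k` is a quadratic extension of number fields, the real places of `k` which ramify in `K`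
(become complex) are exactly those of `N`; and the number of real and of complex places of `K`. -/
structure QuadN {k : Type} [Field k] [NumberField k] (N : Set {w : InfinitePlace k // IsReal w})
    (K : Type) [Field K] [NumberField K] [Algebra k K] : Prop where
  quad : finrank k K = 2
  ram : ∀ w : {w : InfinitePlace k // IsReal w}, w.1.IsUnramifiedIn K ↔ w ∉ N
  real : nrRealPlaces K + 2 * N.ncard = 2 * nrRealPlaces k
  cplx : nrComplexPlaces K = 2 * nrComplexPlaces k + N.ncard

/-- RELC: a positive proportion of the quadratic extensions of any number field, with any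
ramification at the real places. -/
def RelcStmt : Prop :=
  ∀ (k : Type) [Field k] [NumberField k] (N : Set {w : InfinitePlace k // IsReal w}),
    ∃ c : ℝ, 0 < c ∧ ∀ᶠ X : ℝ in atTop,
      ∃ (I : Type) (_ : Fintype I) (K : I → Type) (_ : ∀ i, Field (K i))
        (_ : ∀ i, NumberField (K i)) (_ : ∀ i, Algebra k (K i)),
        c * X ≤ Fintype.card I ∧ (∀ i i', Nonempty (K i ≃+* K i') → i = i') ∧
        ∀ i, QuadN N (K i) ∧ ((discr (K i)).natAbs : ℝ) ≤ X ∧ GoodG k (K i) ∧
          (2 ≤ finrank ℚ k → ¬ IsAbelianGalois ℚ (K i))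

/-- HALFC: at least the proportion `1 - 3 ^ (-u) / 2` of the family, for every number field and
every sign pattern. -/
def HalfcStmt : Prop :=
  ∀ (k : Type) [Field k] [NumberField k] (N : Set {w : InfinitePlace k // IsReal w})
    (Φ : CFrame k), (∀ Z : ℝ, (Mset Φ N Z).Finite) ∧
    (∃ c : ℝ, 0 < c ∧ ∀ᶠ Z : ℝ in atTop, c * Z ≤ ((Mset Φ N Z).ncard : ℝ)) ∧
    ∀ ε : ℝ, 0 < ε → ∀ᶠ Z : ℝ in atTop,
      (1 - 1 / (2 * 3 ^ un N) - ε) * ((Mset Φ N Z).ncard : ℝ) ≤
        ({m | m ∈ Mset Φ N Z ∧ (∀ x : k, x ^ 2 ≠ 3 * (m : k)) ∧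
          ∀ (K : Type) [Field K] [NumberField K] [Algebra k K] (r : K), finrank k K = 2 →
            r ^ 2 = algebraMap k K (3 * (m : k)) → QuadN N K ∧ GoodG k K}.ncard : ℝ)

/-- HEADC: for every even degree `n ≥ 4` and every signature of degree `n` at least `c X`
non-abelian fields of discriminant at most `X` satisfy Leopoldt's conjecture at 3. -/
def HeadcStmt : Prop :=
  ∀ r₁ r₂ : ℕ, Even r₁ → 4 ≤ r₁ + 2 * r₂ → ∃ c : ℝ, 0 < c ∧ ∀ᶠ X : ℝ in atTop,
    ∃ (I : Type) (_ : Fintype I) (K : I → Type) (_ : ∀ i, Field (K i))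
      (_ : ∀ i, NumberField (K i)),
      c * X ≤ Fintype.card I ∧ (∀ i i', Nonempty (K i ≃+* K i') → i = i') ∧
      ∀ i, nrRealPlaces (K i) = r₁ ∧ nrComplexPlaces (K i) = r₂ ∧
        ((discr (K i)).natAbs : ℝ) ≤ X ∧ ¬ IsAbelianGalois ℚ (K i) ∧ LeopoldtAt (K i) 3

/-- TOWC: for every degree `2 ^ j * 3 ^ a`, `j ≥ 1`, and every signature of this degree at least
`c X` fields of discriminant at most `X` (not abelian if the degree is greater than 2) such that
Leopoldt's conjecture at 3 holds for the field and for all its Galois extensions of 3-power degree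
unramified outside 3. -/
def TowcStmt : Prop :=
  ∀ j a r₁ r₂ : ℕ, 1 ≤ j → r₁ + 2 * r₂ = 2 ^ j * 3 ^ a → ∃ c : ℝ, 0 < c ∧ ∀ᶠ X : ℝ in atTop,
    ∃ (I : Type) (_ : Fintype I) (K : I → Type) (_ : ∀ i, Field (K i))
      (_ : ∀ i, NumberField (K i)),
      c * X ≤ Fintype.card I ∧ (∀ i i', Nonempty (K i ≃+* K i') → i = i') ∧
      ∀ i, nrRealPlaces (K i) = r₁ ∧ nrComplexPlaces (K i) = r₂ ∧
        ((discr (K i)).natAbs : ℝ) ≤ X ∧ (2 < r₁ + 2 * r₂ → ¬ IsAbelianGalois ℚ (K i)) ∧
        NoMu (K i) ∧ W3 (K i) ∧ Tower3 (K i)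

end Pool.Agent.LeoC
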