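import Pool.Agent.Helper59_LeoC.Cor
import Pool.Agent.Helper71_LeoK.Apx
import Pool.Agent.Helper59_LeoK.Leo3
import Pool.Agent.Helper90_LeoK.Res
import Pool.Agent.Helper69_LeoK.Nmf
import Pool.Agent.Helper67_LeoK.Prc
import Pool.Agent.Helper11_LeoK.Adm
import Pool.Agent.Helper19_LeoK.Gup3
import Pool.Agent.Helper19_LeoK.Vor
import Pool.Agent.Helper5_LeoK.Ltl
import Pool.Agent.Helper24_LeoK.Sft
import Pool.Agent.Helper37_LeoK.Mrc
import Pool.Agent.Helper37_LeoK.Pck
import Pool.Agent.Helper65_LeoK.Pik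
import Pool.Agent.Helper65_Leo3.Crt
import Pool.Agent.Helper81_LeoK.Lm3
import Pool.Agent.Helper89_LeoK.Lm2
import Pool.Agent.Helper89_LeoK.Lmu
import Pool.Agent.Helper52_LeoK.Ld5
import Pool.Agent.Helper52_LeoK.Loc
import Pool.Agent.Helper65_LeoG.Ld3
import Pool.Agent.Helper65_LeoG.Qrg
import Pool.Agent.Helper5_LeoG.Api
import Pool.Agent.Helper90_LeoG.Ld2
import Pool.Agent.Helper9_LeoG.Ld5
import Pool.Agent.Helper89_LeoG.Den
import Pool.Agent.Helper87_LeoG.Idn
import Pool.Agent.Helper76_LeoG.Mum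
import Pool.Agent.Helper28_LeoG.Lrg
import Pool.Agent.Helper67_LeoG.Twg
import Pool.Agent.Helper61_LeoG.Stg
import Pool.Agent.Helper61_LeoG.Ing
import Pool.Agent.Helper61_LeoG.Bsg
import Pool.Agent.Helper2_LeoG.Cbg
import Pool.Agent.Helper84_LeoG.Irg
import Pool.Agent.Helper84_LeoG.Obg
import Pool.Agent.Helper17_LeoC.Adc
import Pool.Agent.Helper25_LeoC.Avv
import Pool.Agent.Helper21_LeoC.Bcn
import Pool.Agent.Helper21_LeoC.Box
import Pool.Agent.Helper67_LeoC.Cel
import Pool.Agent.Helper89_LeoC.Cnt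
import Pool.Agent.Helper91_LeoC.Cone
import Pool.Agent.Helper17_LeoC.Cov
import Pool.Agent.Helper25_LeoC.Cru
import Pool.Agent.Helper11_LeoC.Evs
import Pool.Agent.Helper21_LeoC.Exc
import Pool.Agent.Helper27_LeoC.Fra
import Pool.Agent.Helper87_LeoC.Hka
import Pool.Agent.Helper69_LeoC.Inj
import Pool.Agent.Helper9_LeoC.Kcc
import Pool.Agent.Helper27_LeoC.Low
import Pool.Agent.Helper94_LeoC.Lwt
import Pool.Agent.Helper56_LeoC.Map
import Pool.Agent.Helper25_LeoC.Msa
import Pool.Agent.Helper73_LeoC.Msq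
import Pool.Agent.Helper94_LeoC.Mst
import Pool.Agent.Helper90_LeoC.Nrf
import Pool.Agent.Helper74_LeoC.Psn
import Pool.Agent.Helper76_LeoC.Rea
import Pool.Agent.Helper65_LeoC.Rep
import Pool.Agent.Helper31_LeoC.Roc
import Pool.Agent.Helper29_LeoC.Sf4
import Pool.Agent.Helper73_LeoC.Smv
import Pool.Agent.Helper52_LeoC.Tcb
import Pool.Agent.Helper52_LeoC.Tcu
import Pool.Agent.Helper91_LeoC.Upp
import Pool.Agent.Helper52_LeoC.Usq
import Pool.Agent.Helper2_LeoC.Vol
import Pool.Agent.Helper24_LeoG.Apl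
import Pool.Agent.Helper11_LeoG.Psh
import Pool.Agent.Helper75_LeoC.Ket
import Pool.Agent.Helper75_LeoC.Psc
import Pool.Agent.Helper89_LeoC.Lwa
import Pool.Agent.Helper39_LeoC.Ror
import Pool.Agent.Helper56_LeoC.Vod

/-!
# LEOC: assembly of all modules
-/

set_option autoImplicit false

namespace Pool.Agent.LeoC.Asm

/-! ## modules of LEOK -/

theorem ltl : LeoK.LtlStmt := LeoK.H5.ltl LeoK.H19.vor
theorem mrc : LeoK.MrcStmt := LeoK.H37.mrc LeoK.H90.res LeoK.H89.lm2 LeoK.H89.lmu LeoK.H81.lm3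
theorem prc : LeoK.PrcStmt := LeoK.H67.prc LeoK.H90.res
theorem leo3 : LeoK.Leo3Stmt := LeoK.H59.leo3 Pool.Agent.Leo3.H65.crt

/-! ## geometry and counting -/

theorem evs : EvsStmt := H11.evs
theorem con : ConStmt := H91.con
theorem rea : ReaStmt := H76.rea H52.tcu H52.tcb
theorem hka : HkaStmt := H87.hka evs H52.tcu H52.tcb
theorem sf4 : Sf4Stmt := H29.sf4 H17.cov LeoK.H24.sft
theorem bcn : BcnStmt := H21.bcn H21.box evs
theorem cel : CelStmt := H67.cel H21.box bcn rea evs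
theorem cru : CruStmt := H25.cru cel con evs
theorem den : LeoG.DenStmt :=
  LeoG.H89.den (LeoG.H9.ld5 (LeoK.H52.ld5 LeoK.H52.loc)) LeoG.H90.ld2 LeoG.H65.ld3
theorem vol : VolStmt := H2.vol LeoG.H11.psh H52.tcb H74.psn H75.psc
theorem ket : KetStmt := H75.ket con H25.avv vol
theorem upp : UppStmt := H91.upp ket sf4 con evs
theorem rep : RepStmt := H65.rep evs
theorem map : MapStmt := H56.map_stmt evs (H39.ror H52.tcu H52.tcb) H31.roc
theorem lwt : LwtStmt := H94.lwt map con rep LeoK.H37.pck evs hka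
theorem mst : MstStmt := H94.mst con rep LeoK.H37.pck evs
theorem msa : MsaStmt := H25.msa H25.avv con H17.cov ltl mst evs
theorem lwa : LwaStmt := H89.lwa map (H56.VOD.vod_stmt con) H17.cov ltl prc con
theorem low : LowStmt := H27.low lwa lwt LeoK.H65.pik
theorem msq : MsqStmt := H73.msq mrc msa mst LeoK.H65.pik
theorem nrf : NrfStmt := H90.nrf hka evs LeoG.H87.idn
theorem smv : SmvStmt := H73.smv rep hka LeoG.H87.idn evs
theorem exc : ExcStmt := H21.exc smv nrf cru con evs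
theorem inj : InjStmt := H69.inj LeoG.H84.obg hka evs
theorem usq : UsqStmt := H52.usq evs
theorem cnt : CntStmt :=
  H89.cnt low msq mst upp den inj exc usq LeoK.H65.pik con hka
theorem adc : AdcStmt := H17.adc (LeoK.H11.adm LeoK.H71.apx)
theorem kcc : KccStmt := H9.kcc cnt adc H27.fra evs

/-! ## algebra -/

theorem stg : LeoG.StgStmt :=
  LeoG.H61.stg LeoG.H24.apl LeoG.H5.api LeoG.H65.qrg LeoG.H61.bsg LeoG.H2.cbg LeoG.H84.irg
theorem lrg : LeoG.LrgStmt := LeoG.H28.lrg LeoG.H76.mum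
theorem twg : LeoG.TwgStmt := LeoG.H67.twg LeoG.H76.mum
theorem ing : LeoG.IngStmt :=
  LeoG.H61.ing lrg twg LeoK.H69.nmf LeoK.H69.redp leo3 LeoK.H19.gup3

/-! ## final statements -/

theorem relc : RelcStmt := H59.relc kcc stg ing
theorem halfc : HalfcStmt := H59.halfc cnt adc stg ing
theorem headc : HeadcStmt := H59.headc relc
theorem towc : TowcStmt := H59.towc relc

end Pool.Agent.LeoC.Asm
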